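import Mathlib
import Pool.Agent.N546.PN.Stm

/-!
# Project PN, part SMO: almost all families are smooth (helper195)
-/

set_option autoImplicit false

namespace Pool.Agent.N195.PN

open Finset Pool.Agent.N546.PN

theorem smo_ (h1 : S_DEL) (h2 : S_SMP) : S_SMO := by
  classical
  intro n ι _ _ e ε hε
  obtain ⟨Δ, hΔ, hd⟩ := h1 n ι e
  obtain ⟨N, H₀, hN⟩ := h2 ((k : ι) × Mon n (e k + 1)) Δ hΔ 2 Nat.prime_two ε hε
  refine ⟨H₀, fun H hH => ?_⟩
  have hcard : Fintype.card ((k : ι) × Mon n (e k + 1)) = sz n e := by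
    rw [Fintype.card_sigma]
    rfl
  have h3 := hN H hH
  rw [hcard] at h3
  refine le_trans ?_ h3
  refine Nat.cast_le.2 (Finset.card_le_card_of_injOn (fun c q => c q.1 q.2) ?_ ?_)
  · intro c hc
    rw [mem_coe, mem_filter] at hc ⊢
    obtain ⟨hc1, hc2⟩ := hc
    constructor
    · unfold bx at hc1
      rw [Fintype.mem_piFinset] at hc1 ⊢
      intro q
      exact (Fintype.mem_piFinset.1 (hc1 q.1)) q.2
    · push Not at hc2
      obtain ⟨K, _, _, hK⟩ := hc2
      have h4 := hd K (ic c K) hK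
      have h5 : MvPolynomial.aeval (fun q : (k : ι) × Mon n (e k + 1) => ic c K q.1 q.2) Δ =
          ((MvPolynomial.eval (fun q : (k : ι) × Mon n (e k + 1) => c q.1 q.2) Δ : ℤ) : K) := by
        have h6 := MvPolynomial.aeval_algebraMap_apply (B := K)
          (fun q : (k : ι) × Mon n (e k + 1) => c q.1 q.2) Δ
        exact h6
      rw [h5, Int.cast_eq_zero] at h4
      have h7 : MvPolynomial.eval (fun q : (k : ι) × Mon n (e k + 1) => c q.1 q.2) Δ = 0 := h4
      show ((2 : ℕ) : ℤ) ^ N ∣ MvPolynomial.eval (fun q : (k : ι) × Mon n (e k + 1) => c q.1 q.2) Δ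
      rw [h7]
      exact dvd_zero _
  · intro c _ c' _ h
    funext k m
    exact congrFun h ⟨k, m⟩

end Pool.Agent.N195.PN
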